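import Pool.Agent.TNum.Final

/-!
# A T-number of type exactly 2

Full answer to Q1 of MP_dac5dd_nt.
-/

open Polynomial Filter Topology

namespace Pool.Agent.Results.MP_dac5dd_nt.TypeTwo

/-- The height of an integer polynomial: the maximum of the absolute values of its
coefficients. -/
noncomputable def height (P : ℤ[X]) : ℕ := P.support.sup fun i => (P.coeff i).natAbs

/-- Mahler's exponent `w_n(ξ)`: the supremum, in `[-∞, ∞]`, of the real numbers `w` such that
`0 < |P(ξ)| ≤ H(P)^(-w)` for infinitely many integer polynomials `P` of degree at most `n`. -/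
noncomputable def mahlerExp (n : ℕ) (ξ : ℝ) : EReal :=
  sSup {e : EReal | ∃ w : ℝ, e = (w : EReal) ∧ Set.Infinite {P : ℤ[X] | P.natDegree ≤ n ∧
    0 < |aeval ξ P| ∧ |aeval ξ P| ≤ (height P : ℝ) ^ (-w)}}

/-- `ξ` is a T-number: `limsup w_n(ξ)/n = ∞`, while `w_n(ξ) < ∞` for all `n ≥ 1`. -/
def IsTNumber (ξ : ℝ) : Prop :=
  limsup (fun n : ℕ => mahlerExp n ξ / (n : EReal)) atTop = ⊤ ∧
    ∀ n : ℕ, 1 ≤ n → mahlerExp n ξ < ⊤

/-- The type of a T-number `ξ`: the limsup of `τ_n = log w_n(ξ) / log n`, that is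
`w_n(ξ) = n ^ τ_n`. -/
noncomputable def type (ξ : ℝ) : EReal :=
  limsup (fun n : ℕ => ((Real.log (mahlerExp n ξ).toReal / Real.log n : ℝ) : EReal)) atTop

/-- There is a real T-number of type exactly `2`; moreover `n ^ 2 ≤ w_n(ξ) ≤ 26 n ^ 2` for all
`n ≥ 2`. -/
theorem result : ∃ ξ : ℝ, IsTNumber ξ ∧ type ξ = 2 ∧ ∀ n : ℕ, 2 ≤ n →
    ((n ^ 2 : ℕ) : EReal) ≤ mahlerExp n ξ ∧ mahlerExp n ξ ≤ ((26 * n ^ 2 : ℕ) : EReal) := by
  obtain ⟨ξ, b₀, F, hb, hF⟩ := Pool.Agent.TNum.exists_xi
  have htr : Transcendental ℤ ξ := Pool.Agent.TNum.transcendental_of hF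
  have hht : ∀ P : ℤ[X], Pool.Agent.TNum.ht P = height P := fun P => rfl
  have hup : ∀ n : ℕ, mahlerExp n ξ ≤ ((26 * n ^ 2 : ℕ) : EReal) := by
    intro n
    obtain ⟨κ, hκ, h⟩ := Pool.Agent.TNum.lower_all htr hb n
    apply sSup_le
    rintro e ⟨w, rfl, hw⟩
    by_contra hcon
    push Not at hcon
    have hlt : ((26 * n ^ 2 : ℕ) : ℝ) < w := by
      have h1 : (((26 * n ^ 2 : ℕ) : ℝ) : EReal) < (w : EReal) := by
        rwa [EReal.coe_natCast]
      exact EReal.coe_lt_coe_iff.1 h1
    apply hw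
    refine (Pool.Agent.TNum.finite_of_lower n hκ h w hlt).subset ?_
    rintro P ⟨h1, h2, h3⟩
    refine ⟨?_, h1, h3⟩
    rintro rfl
    simp at h2
  have hlow : ∀ n : ℕ, 2 ≤ n → ((n ^ 2 : ℕ) : EReal) ≤ mahlerExp n ξ := by
    intro n hn
    obtain ⟨k, rfl⟩ := Nat.exists_eq_add_of_le' hn
    apply le_sSup
    refine ⟨(((k + 2) ^ 2 : ℕ) : ℝ), by rw [EReal.coe_natCast], ?_⟩
    intro hfin
    obtain ⟨A, hA⟩ := (hfin.image height).bddAbove
    set j := Nat.pair k (A + 1) with hj
    obtain ⟨h1, h2, h3, h4⟩ := hF j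
    have hun : (Nat.unpair j).1 = k := by rw [hj, Nat.unpair_pair]
    rw [hun] at h1 h4
    have hmem : F j ∈ {P : ℤ[X] | P.natDegree ≤ k + 2 ∧ 0 < |aeval ξ P| ∧
        |aeval ξ P| ≤ (height P : ℝ) ^ (-(((k + 2) ^ 2 : ℕ) : ℝ))} := by
      refine ⟨h1.le, abs_pos.2 h3, h4.trans (le_of_eq ?_)⟩
      rw [Real.rpow_neg (Nat.cast_nonneg _), Real.rpow_natCast, hht]
    have h5 : height (F j) ≤ A := hA (Set.mem_image_of_mem height hmem)
    have h6 : A + 1 ≤ j := Nat.right_le_pair k (A + 1)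
    rw [hht] at h2
    omega
  -- real values
  have hreal : ∀ n : ℕ, 2 ≤ n → ((n ^ 2 : ℕ) : ℝ) ≤ (mahlerExp n ξ).toReal ∧
      (mahlerExp n ξ).toReal ≤ ((26 * n ^ 2 : ℕ) : ℝ) := by
    intro n hn
    have h1 := hlow n hn
    have h2 := hup n
    have ht : mahlerExp n ξ ≠ ⊤ := by
      intro h
      rw [h, top_le_iff, ← EReal.coe_natCast] at h2
      exact EReal.coe_ne_top _ h2
    have hbot : mahlerExp n ξ ≠ ⊥ := by
      intro h
      rw [h, le_bot_iff, ← EReal.coe_natCast] at h1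
      exact EReal.coe_ne_bot _ h1
    rw [← EReal.coe_toReal ht hbot, ← EReal.coe_natCast, EReal.coe_le_coe_iff] at h1 h2
    exact ⟨h1, h2⟩
  refine ⟨ξ, ⟨?_, ?_⟩, ?_, fun n hn => ⟨hlow n hn, hup n⟩⟩
  · -- the limsup of `w_n / n`
    have h1 : Tendsto (fun n : ℕ => ((n : ℝ) : EReal)) atTop (𝓝 ⊤) :=
      EReal.tendsto_coe_nhds_top_iff.2 tendsto_natCast_atTop_atTop
    have h2 : Tendsto (fun n : ℕ => mahlerExp n ξ / (n : EReal)) atTop (𝓝 ⊤) := by
      refine tendsto_nhds_top_mono h1 ?_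
      filter_upwards [eventually_ge_atTop 2] with n hn
      have hn0 : (0 : ℝ) < n := by
        have : (2 : ℝ) ≤ n := by exact_mod_cast hn
        linarith
      have h3 : ((n : ℝ) : EReal) = ((n ^ 2 : ℕ) : EReal) / (n : EReal) := by
        rw [← EReal.coe_natCast, ← EReal.coe_natCast, ← EReal.coe_div]
        congr 1
        push_cast
        field_simp
      rw [h3]
      exact EReal.div_le_div_right_of_nonneg (by positivity) (hlow n hn)
    exact h2.limsup_eq
  · -- finiteness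
    intro n _
    refine lt_of_le_of_lt (hup n) ?_
    rw [← EReal.coe_natCast]
    exact EReal.coe_lt_top _
  · -- the type
    have hlogn : ∀ n : ℕ, 2 ≤ n → 0 < Real.log n := fun n hn =>
      Real.log_pos (by exact_mod_cast (by omega : 1 < n))
    have h1 : Tendsto (fun n : ℕ => Real.log (mahlerExp n ξ).toReal / Real.log n) atTop
        (𝓝 2) := by
      have h2 : Tendsto (fun n : ℕ => 2 + Real.log 26 / Real.log (n : ℝ)) atTop (𝓝 2) := by
        have h3 : Tendsto (fun n : ℕ => Real.log 26 / Real.log (n : ℝ)) atTop (𝓝 0) :=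
          (Real.tendsto_log_atTop.comp tendsto_natCast_atTop_atTop).const_div_atTop _
        simpa using h3.const_add 2
      refine tendsto_of_tendsto_of_tendsto_of_le_of_le' tendsto_const_nhds h2 ?_ ?_
      · filter_upwards [eventually_ge_atTop 2] with n hn
        have hn0 : (0 : ℝ) < n := by
          have : (2 : ℝ) ≤ n := by exact_mod_cast hn
          linarith
        rw [le_div_iff₀ (hlogn n hn)]
        have h4 := (hreal n hn).1
        push_cast at h4
        have h5 := Real.log_le_log (by positivity) h4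
        rwa [Real.log_pow, Nat.cast_ofNat] at h5
      · filter_upwards [eventually_ge_atTop 2] with n hn
        have hn0 : (0 : ℝ) < n := by
          have : (2 : ℝ) ≤ n := by exact_mod_cast hn
          linarith
        rw [div_le_iff₀ (hlogn n hn)]
        obtain ⟨h4, h5⟩ := hreal n hn
        push_cast at h4 h5
        have h6 : 0 < (mahlerExp n ξ).toReal := lt_of_lt_of_le (by positivity) h4
        have h7 := Real.log_le_log h6 h5
        rw [Real.log_mul (by norm_num) (by positivity), Real.log_pow, Nat.cast_ofNat] at h7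
        have h8 : (2 + Real.log 26 / Real.log (n : ℝ)) * Real.log n =
            Real.log 26 + 2 * Real.log n := by
          have := (hlogn n hn).ne'
          field_simp
          ring
        rw [h8]
        exact h7
    have h3 := (continuous_coe_real_ereal.tendsto 2).comp h1
    exact h3.limsup_eq

end Pool.Agent.Results.MP_dac5dd_nt.TypeTwo
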